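import Pool.Agent.H.MP_56d946_al.Comp

set_option autoImplicit false

namespace Pool.Agent.Results.MP_56d946_al.IsoUndecidable

open Pool.Agent.H.MP_56d946_al

/-- The isomorphism problem for self-similar groups is algorithmically unsolvable: no computable
function decides, for the tables of two finite invertible automata, whether the groups they
generate are isomorphic. This holds already when the second automaton and the number of states
of the first one are fixed. -/
theorem result :
    (¬ ∃ f : (ℕ × ℕ × List (List (ℕ × ℕ))) × (ℕ × ℕ × List (List (ℕ × ℕ))) → Bool,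
      Computable f ∧ ∀ (m n m' n' : ℕ) (A : Automaton m n) (B : Automaton m' n'),
        1 ≤ m → 2 ≤ n → 1 ≤ m' → 2 ≤ n' →
        (f (A.code, B.code) = true ↔ Nonempty (A.group ≃* B.group))) ∧
    ∃ (m n₀ : ℕ) (B : Automaton m n₀), 1 ≤ m ∧ 2 ≤ n₀ ∧
      ¬ ∃ f : (ℕ × ℕ × List (List (ℕ × ℕ))) → Bool, Computable f ∧
        ∀ (n : ℕ) (A : Automaton m n), 2 ≤ n →
          (f A.code = true ↔ Nonempty (A.group ≃* B.group)) :=
  ⟨iso_undec, iso_undec_fixed⟩

end Pool.Agent.Results.MP_56d946_al.IsoUndecidable
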